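import Mathlib
import Pool.Agent.H767R5.UT.Zero

/-!
# Upper tail replica symmetry phase diagram for disjoint unions of `K_1`, `K_2`, `K_{1,2}`
(MP_bbc525_pr)

The complete upper tail replica symmetry phase diagram of every finite graph with at least one edge
all of whose components have at most two edges; in particular of the smallest connected non-regular
graph `K_{1,2}`.

Definitions (in `Pool.Agent.H767R5.UT`):
* `Graphon`: a symmetric measurable function `[0,1]² → [0,1]`;
* `homDensity H W`: the homomorphism density `t(H, W)`;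
* `Ip p x = x log (x/p) + (1-x) log ((1-x)/(1-p))`; `cost p W = ∫∫ Ip p (W(x,y)) dx dy`;
* `Feasible H q W`: `t(H, W) ≥ q^{e(H)}`; `UT H p q`: the infimum of `cost p W` over the feasible
  graphons;
* `CherryForest i H a b`: `H` is a disjoint union of `a` copies of `K_{1,2}`, `b` copies of `K_2` and
  isolated vertices;
* `bdry ρ q = (1/q - 1)^((1 + 2 (1 + ρ) q) / (1 - 2 q))` for `q ≠ 1/2`, and `exp (4 + 2 ρ)` for
  `q = 1/2`.

For `K_{1,2}` (`a = 1`, `b = 0`) the boundary of the replica symmetric region is the curve
`(1 + (1/q - 1)^((1 + 2 q) / (1 - 2 q))) p = 1`.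
-/

set_option autoImplicit false

namespace Pool.Agent.Results.MP_bbc525_pr.CherryForests

open MeasureTheory Pool.Agent.H767R5.UT

/-- For a disjoint union `H` of `a` copies of `K_{1,2}`, `b` copies of `K_2` and isolated vertices
(`a + b ≥ 1`) and `0 < p ≤ q < 1`: `UT_p(H, q) ≤ I_p(q)`, with equality (replica symmetry) if and
only if `a = 0` or `(1 + bdry (b/a) q) p ≥ 1`; and in the replica symmetric region the constant
graphon `q` is the only minimizer. -/
theorem result :
    ∀ (V : Type) (i : Fintype V) (H : SimpleGraph V) (a b : ℕ),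
      CherryForest i H a b → 0 < a + b →
      ∀ p q : ℝ, 0 < p → p ≤ q → q < 1 →
        UT H p q ≤ Ip p q ∧
        (UT H p q = Ip p q ↔ a = 0 ∨ 1 ≤ (1 + bdry (b / a) q) * p) ∧
        (UT H p q = Ip p q → ∀ W : Graphon, Feasible H q W → cost p W = UT H p q →
          ∀ᵐ z : unitInterval × unitInterval, W.toFun z.1 z.2 = q) :=
  fun _ i H a b hH hab p q hp hpq hq => phase_all i H a b hH hab p q hp hpq hq

end Pool.Agent.Results.MP_bbc525_pr.CherryForests
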